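import Pool.Agent.V5helper8.GP.Hn

/-!
# Homomorphisms from the kernel of the degree
-/

set_option autoImplicit false

namespace Pool.Agent.V5helper8.GP

open Multiplicative

variable {G : Type} [Group G] {g : G} {E : Set G} {M : Subgroup G} {P : Type} [Group P]
  {o : M →* P} {t : P}

/-- the degree -/
theorem HN.deg (h : HN g E M P o t) : ∃ d : P →* Multiplicative ℤ, (∀ m, d (o m) = 1) ∧
    d t = ofAdd 1 := by
  obtain ⟨d, h1, h2⟩ := h.univ (Multiplicative ℤ) 1 (ofAdd 1) (by intro x y _ _; simp)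
  exact ⟨d, h1, h2⟩

theorem deg_zpow {d : P →* Multiplicative ℤ} (ht : d t = ofAdd 1) (j : ℤ) :
    d (t ^ j) = ofAdd j := by
  rw [map_zpow, ht, ← ofAdd_zsmul, smul_eq_mul, mul_one]

theorem deg_conj {d : P →* Multiplicative ℤ} (ho : ∀ m, d (o m) = 1) (j : ℤ) (m : M) :
    t ^ j * o m * (t ^ j)⁻¹ ∈ d.ker := by
  rw [MonoidHom.mem_ker, map_mul, map_mul, ho, map_inv, mul_one, mul_inv_cancel]

/-- the action of the base -/
def sg {H : Type} [Group H] (F : ℤ → (M →* H)) : M →* Equiv.Perm (ℤ × H) where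
  toFun m :=
    { toFun := fun p => (p.1, F p.1 m * p.2)
      invFun := fun p => (p.1, (F p.1 m)⁻¹ * p.2)
      left_inv := by
        rintro ⟨k, x⟩
        simp
      right_inv := by
        rintro ⟨k, x⟩
        simp }
  map_one' := by
    ext p
    · rfl
    · simp
  map_mul' x y := by
    ext p
    · rfl
    · simp [mul_assoc]

/-- the action of the stable letter -/
def ta (H : Type) : Equiv.Perm (ℤ × H) where
  toFun p := (p.1 - 1, p.2)
  invFun p := (p.1 + 1, p.2)
  left_inv := by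
    rintro ⟨k, x⟩
    simp
  right_inv := by
    rintro ⟨k, x⟩
    simp

theorem ta_zpow (H : Type) (j : ℤ) : ∀ (k : ℤ) (x : H), (ta H ^ j) (k, x) = (k - j, x) := by
  induction j using Int.induction_on with
  | zero => intro k x; simp
  | succ n ih =>
    intro k x
    rw [zpow_add_one, Equiv.Perm.mul_apply]
    show (ta H ^ (n : ℤ)) (k - 1, x) = _
    rw [ih]
    congr 1
    ring
  | pred n ih =>
    intro k x
    rw [zpow_sub_one, Equiv.Perm.mul_apply]
    show (ta H ^ (-(n : ℤ))) (k + 1, x) = _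
    rw [ih]
    congr 1
    ring

/-- a family of homomorphisms from the base gives a homomorphism from the kernel of the degree -/
theorem HN.fam (h : HN g E M P o t) {d : P →* Multiplicative ℤ} (ho : ∀ m, d (o m) = 1)
    (ht : d t = ofAdd 1) {H : Type} [Group H] (F : ℤ → (M →* H))
    (hF : ∀ (k : ℤ) (x y : M), (x : G) ∈ E → (y : G) = g * x * g⁻¹ → F (k + 1) x = F k y) :
    ∃ φ : d.ker →* H, ∀ (j : ℤ) (m : M),
      φ ⟨t ^ j * o m * (t ^ j)⁻¹, deg_conj ho j m⟩ = F j m := by
  obtain ⟨Φ, h1, h2⟩ := h.univ (Equiv.Perm (ℤ × H)) (sg F) (ta H) (by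
    intro x y hx hy
    ext ⟨k, z⟩
    · rfl
    · show F k x * z = F (k - 1) y * z
      rw [← hF (k - 1) x y hx hy, sub_add_cancel])
  -- the two properties
  let Q : Subgroup P :=
    { carrier := {x | ∀ (k : ℤ) (z z' : H), (Φ x (k, z)).1 = k - toAdd (d x) ∧
        Φ x (k, z * z') = ((Φ x (k, z)).1, (Φ x (k, z)).2 * z')}
      one_mem' := by
        intro k z z'
        simp
      mul_mem' := by
        intro x y hx hy k z z'
        have e1 : Φ (x * y) (k, z) = Φ x (Φ y (k, z)) := by rw [map_mul]; rfl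
        have e2 : Φ (x * y) (k, z * z') = Φ x (Φ y (k, z * z')) := by rw [map_mul]; rfl
        obtain ⟨a1, a2⟩ := hy k z z'
        obtain ⟨b1, b2⟩ := hx (Φ y (k, z)).1 (Φ y (k, z)).2 z'
        constructor
        · rw [e1]
          have e3 : Φ x (Φ y (k, z)) = Φ x ((Φ y (k, z)).1, (Φ y (k, z)).2) := rfl
          rw [e3, b1, a1, map_mul, toAdd_mul]
          ring
        · rw [e2, a2, b2, e1]
      inv_mem' := by
        intro x hx k z z'
        obtain ⟨q, hq⟩ : ∃ q, q = Φ x⁻¹ (k, z) := ⟨_, rfl⟩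
        have e1 : Φ x (q.1, q.2) = (k, z) := by
          have : ((q.1, q.2) : ℤ × H) = q := rfl
          rw [this, hq, map_inv]
          exact Equiv.apply_symm_apply (Φ x) (k, z)
        obtain ⟨a1, a2⟩ := hx q.1 q.2 z'
        rw [e1] at a1 a2
        have a1' : k = q.1 - toAdd (d x) := a1
        have a2' : Φ x (q.1, q.2 * z') = (k, z * z') := a2
        rw [← hq]
        constructor
        · rw [map_inv, toAdd_inv, a1']
          ring
        · rw [← a2', map_inv]
          exact Equiv.symm_apply_apply (Φ x) (q.1, q.2 * z') }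
  have hQ : ∀ x, x ∈ Q := by
    apply h.ind
    · intro k z z'
      rw [h2, ht]
      exact ⟨rfl, rfl⟩
    · intro m k z z'
      rw [h1, ho]
      refine ⟨?_, ?_⟩
      · show k = k - toAdd (1 : Multiplicative ℤ)
        rw [toAdd_one, sub_zero]
      · show (k, F k m * (z * z')) = (k, F k m * z * z')
        rw [mul_assoc]
  have hz : ∀ x : d.ker, ∀ z : H, (Φ x (0, z)).1 = 0 := by
    intro x z
    have h3 : d x = 1 := x.2
    rw [(hQ x 0 z z).1, h3, toAdd_one, sub_zero]
  refine ⟨MonoidHom.mk' (fun x => (Φ x (0, 1)).2) ?_, ?_⟩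
  · intro x y
    show (Φ ((x : P) * y) (0, 1)).2 = (Φ x (0, 1)).2 * (Φ y (0, 1)).2
    have e1 : Φ ((x : P) * y) (0, 1) = Φ x (Φ y (0, 1)) := by rw [map_mul]; rfl
    have e2 : Φ y (0, 1) = (0, 1 * (Φ y (0, 1)).2) := by
      apply Prod.ext
      · exact hz y 1
      · rw [one_mul]
    rw [e1, e2, (hQ x 0 1 _).2, one_mul]
  · intro j m
    show (Φ (t ^ j * o m * (t ^ j)⁻¹) (0, 1)).2 = F j m
    have e1 : (Φ (t ^ j * o m * (t ^ j)⁻¹) (0, 1)) = (ta H ^ j) (sg F m ((ta H ^ j)⁻¹ (0, 1))) := by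
      rw [map_mul, map_mul, map_inv, map_zpow, h1, h2]
      rfl
    have e2 : (ta H ^ j)⁻¹ (0, 1) = (j, 1) := by
      rw [Equiv.Perm.inv_eq_iff_eq, ta_zpow, sub_self]
    rw [e1, e2]
    show ((ta H ^ j) (j, F j m * 1)).2 = F j m
    rw [ta_zpow, mul_one]

end Pool.Agent.V5helper8.GP
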