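import Pool.Agent.V5helper8.GP.Rl

/-!
# Final form
-/

set_option autoImplicit false

namespace Pool.Agent.V5helper8.GP

open Q30.FJ
open Pool.Agent.Y110.FJ
open Pool.Agent.Y462.SS (Closed)

variable {C : ∀ (G : Type) [Group G], Prop}

section fin

variable {G : Type} [Group G] {V : Type} {Λ : SimpleGraph V} {A : V → Subgroup G}
  {Q : Subgroup G} {L : V → Subgroup G} {N : Subgroup G} [N.Normal]

theorem nc_eq (hperm : ∀ (g : G) (v : V), ∃ w, Mv N g (A v) (A w)) :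
    Subgroup.normalClosure {x | ∃ v, x ∈ A v} = nc N A := by
  apply le_antisymm
  · have : (nc N A).Normal := nc_normal hperm
    apply Subgroup.normalClosure_le_normal
    rintro x ⟨v, hx⟩
    exact le_nc v hx
  · rw [nc, Subgroup.closure_le]
    rintro _ ⟨n, hn, v, a, ha, rfl⟩
    have h1 : a ∈ Subgroup.normalClosure {x | ∃ v, x ∈ A v} :=
      Subgroup.subset_normalClosure ⟨v, ha⟩
    exact Subgroup.normalClosure_normal.conj_mem a h1 n

theorem fin_gen (hC : ClosedE C) (hF : Pool.Agent.R684.FP.FbC C) (h : Rel Λ A Q L N)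
    (hne : ∀ v, A v ≠ ⊥) (hperm : ∀ (g : G) (v : V), ∃ w, Mv N g (A v) (A w))
    (htori : ∀ (v : V) (g : G), Maps g (A v) (A v) → C ↥(A v ⊔ Subgroup.zpowers g))
    (hQ : C (G ⧸ Subgroup.normalClosure {x | ∃ v, x ∈ A v}))
    (hcase : ∀ g : G, (∀ s : Finset V, ∃ n ∈ N, (∀ q ∈ Q, n * g * q * (n * g)⁻¹ ∈ Q) ∧
        ∀ v ∈ s, ∃ w, Maps (n * g) (A v) (A w)) ∨
      (∀ v : V, ∃ k : ℕ, 0 < k ∧ ∀ (m : ℤ) (w : V),
        Mv N (g ^ ((k : ℤ) * m)) (A v) (A w) → ¬ Λ.Adj v w)) : C G :=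
  rel_all (closedF hC hF) h hne hperm (fun v => cr_of_tori (htori v)) _ (nc_eq hperm) hQ hcase

theorem fin_free (hC : ClosedE C) (hF : Pool.Agent.R684.FP.FbC C) (h : Rel Λ A Q L N)
    (hQf : IsFreeGroup Q)
    (hne : ∀ v, A v ≠ ⊥) (hperm : ∀ (g : G) (v : V), ∃ w, Mv N g (A v) (A w))
    (htori : ∀ (v : V) (g : G), Maps g (A v) (A v) → C ↥(A v ⊔ Subgroup.zpowers g))
    (hQ : C (G ⧸ N))
    (hcase : ∀ g : G, (∀ s : Finset V, ∃ n ∈ N, (∀ q ∈ Q, n * g * q * (n * g)⁻¹ ∈ Q) ∧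
        ∀ v ∈ s, ∃ w, Maps (n * g) (A v) (A w)) ∨
      (∀ v : V, ∃ k : ℕ, 0 < k ∧ ∀ (m : ℤ) (w : V),
        Mv N (g ^ ((k : ℤ) * m)) (A v) (A w) → ¬ Λ.Adj v w)) : C G := by
  obtain ⟨K, hK⟩ : ∃ K : Subgroup G, K = Subgroup.normalClosure {x | ∃ v, x ∈ A v} := ⟨_, rfl⟩
  have hKn : K.Normal := by
    rw [hK]
    exact Subgroup.normalClosure_normal
  have hK' : K = nc N A := by
    rw [hK]
    exact nc_eq hperm
  have hKN : K ≤ N := by
    rw [hK']
    exact nc_le h.le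
  have hnor : (N.map (QuotientGroup.mk' K)).Normal :=
    Subgroup.Normal.map inferInstance _ (QuotientGroup.mk'_surjective _)
  refine rel_all (closedF hC hF) h hne hperm (fun v => cr_of_tori (htori v)) K hK' ?_ hcase
  refine (closedF hC hF).free _ (N.map (QuotientGroup.mk' K)) ?_ ?_
  · obtain ⟨φ, hφ, hφQ⟩ := h.univ Q (fun v => 1) (MonoidHom.id Q) (fun v w _ a b => rfl)
      (fun v a b => by rw [MonoidHom.one_apply, one_mul, mul_one])
    have hφK : ∀ (y : N), (y : G) ∈ K → φ y = 1 := by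
      intro y hy
      rw [hK'] at hy
      exact nc_hom h.le φ (fun v a ha => hφ v ⟨a, ha⟩) hy y.2
    obtain ⟨F, hF'⟩ := desc K N φ hφK
    have hinj : Function.Injective F := by
      rw [injective_iff_map_eq_one]
      rintro ⟨_, y, hy, rfl⟩ hy1
      rw [hF' ⟨y, hy⟩ _ rfl] at hy1
      obtain ⟨m, hm, q, hq, hmq⟩ := h.decomp hy
      rw [← hK'] at hm
      have h1 : (⟨y, hy⟩ : N) = ⟨m, hKN hm⟩ * ⟨q, h.leQ hq⟩ := Subtype.ext hmq
      rw [h1, map_mul, hφK _ hm, one_mul, hφQ ⟨q, hq⟩] at hy1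
      have h2 : q = 1 := congrArg Subtype.val hy1
      apply Subtype.ext
      show QuotientGroup.mk' K y = 1
      rw [hmq, h2, mul_one]
      exact (QuotientGroup.eq_one_iff m).2 hm
    exact IsFreeGroup.ofMulEquiv (MonoidHom.ofInjective hinj).symm
  · exact hC.base.of_injective _ (G ⧸ N)
      (QuotientGroup.quotientQuotientEquivQuotient K N hKN).toMonoidHom
      (QuotientGroup.quotientQuotientEquivQuotient K N hKN).injective hQ

end fin

end Pool.Agent.V5helper8.GP
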