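import Pool.Agent.Q30.FJ.GPf

/-!
# HNN extensions along the conjugation by an element: the properties which are used
-/

set_option autoImplicit false

namespace Pool.Agent.V5helper8.GP

/-- `P` is the HNN extension of the subgroup `M` along the conjugation by `g` on the subgroup
generated by `E` -/
structure HN {G : Type} [Group G] (g : G) (E : Set G) (M : Subgroup G) (P : Type) [Group P]
    (o : M →* P) (t : P) : Prop where
  inj : Function.Injective o
  move : ∀ x y : M, (x : G) ∈ E → (y : G) = g * x * g⁻¹ → t * o x = o y * t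
  ind : ∀ Q : Subgroup P, t ∈ Q → (∀ m, o m ∈ Q) → ∀ x, x ∈ Q
  univ : ∀ (H : Type) [Group H] (f : M →* H) (s : H),
    (∀ x y : M, (x : G) ∈ E → (y : G) = g * x * g⁻¹ → s * f x = f y * s) →
    ∃ F : P →* H, (∀ m, F (o m) = f m) ∧ F t = s

section ex

variable {G : Type} [Group G] (g : G) (E : Set G)

theorem cj_mem {x : G} (hx : x ∈ Subgroup.closure E) :
    g * x * g⁻¹ ∈ Subgroup.closure ((fun x => g * x * g⁻¹) '' E) := by
  have h := MonoidHom.map_closure (MulAut.conj g).toMonoidHom E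
  have h2 : (MulAut.conj g).toMonoidHom x ∈ (Subgroup.closure E).map (MulAut.conj g).toMonoidHom :=
    ⟨x, hx, rfl⟩
  rw [h] at h2
  exact h2

theorem cj_mem' {x : G} (hx : x ∈ Subgroup.closure ((fun x => g * x * g⁻¹) '' E)) :
    g⁻¹ * x * g ∈ Subgroup.closure E := by
  have h := MonoidHom.map_closure (MulAut.conj g).toMonoidHom E
  have h2 : x ∈ (Subgroup.closure E).map (MulAut.conj g).toMonoidHom := by
    rw [h]; exact hx
  obtain ⟨y, hy, rfl⟩ := h2
  have : g⁻¹ * ((MulAut.conj g).toMonoidHom y) * g = y := by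
    simp [MulAut.conj_apply, mul_assoc]
  rw [this]
  exact hy

/-- the HNN extension exists -/
theorem ex (M : Subgroup G) (h1 : Subgroup.closure E ≤ M)
    (h2 : Subgroup.closure ((fun x => g * x * g⁻¹) '' E) ≤ M) :
    ∃ (P : Type) (_ : Group P) (o : M →* P) (t : P), HN g E M P o t := by
  let X : Subgroup M := (Subgroup.closure E).subgroupOf M
  let Y : Subgroup M := (Subgroup.closure ((fun x => g * x * g⁻¹) '' E)).subgroupOf M
  let φ : X ≃* Y :=
    { toFun := fun a => ⟨⟨g * (a : G) * g⁻¹, h2 (cj_mem g E a.2)⟩, cj_mem g E a.2⟩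
      invFun := fun b => ⟨⟨g⁻¹ * (b : G) * g, h1 (cj_mem' g E b.2)⟩, cj_mem' g E b.2⟩
      left_inv := by
        intro a
        apply Subtype.ext; apply Subtype.ext
        show g⁻¹ * (g * ((a : M) : G) * g⁻¹) * g = ((a : M) : G)
        group
      right_inv := by
        intro b
        apply Subtype.ext; apply Subtype.ext
        show g * (g⁻¹ * ((b : M) : G) * g) * g⁻¹ = ((b : M) : G)
        group
      map_mul' := by
        intro a b
        apply Subtype.ext; apply Subtype.ext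
        show g * (((a : M) : G) * ((b : M) : G)) * g⁻¹ =
          g * ((a : M) : G) * g⁻¹ * (g * ((b : M) : G) * g⁻¹)
        group }
  have hφ : ∀ a : X, (((φ a : Y) : M) : G) = g * ((a : M) : G) * g⁻¹ := fun a => rfl
  refine ⟨HNNExtension M X Y φ, inferInstance, HNNExtension.of, HNNExtension.t, ?_, ?_, ?_, ?_⟩
  · exact HNNExtension.of_injective φ
  · intro x y hx hy
    have ha : x ∈ X := Subgroup.subset_closure hx
    have h3 := HNNExtension.t_mul_of (φ := φ) (⟨x, ha⟩ : X)
    have h4 : ((φ ⟨x, ha⟩ : Y) : M) = y := by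
      apply Subtype.ext
      rw [hφ, hy]
    rw [h4] at h3
    exact h3
  · intro Q ht ho x
    induction x using HNNExtension.induction_on with
    | of m => exact ho m
    | t => exact ht
    | mul x y hx hy => exact Q.mul_mem hx hy
    | inv x hx => exact Q.inv_mem hx
  · intro H _ f s hs
    have hcl : ∀ x ∈ Subgroup.closure E, ∀ (h3 : x ∈ M) (h4 : g * x * g⁻¹ ∈ M),
        s * f ⟨x, h3⟩ = f ⟨g * x * g⁻¹, h4⟩ * s := by
      intro x hx
      induction hx using Subgroup.closure_induction with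
      | mem x hx =>
        intro h3 h4
        exact hs ⟨x, h3⟩ ⟨_, h4⟩ hx rfl
      | one =>
        intro h3 h4
        have e1 : (⟨1, h3⟩ : M) = 1 := rfl
        have e2 : (⟨g * 1 * g⁻¹, h4⟩ : M) = 1 := by
          apply Subtype.ext; simp
        rw [e1, e2]
        have e3 : f 1 = 1 := map_one f
        rw [e3, mul_one, one_mul]
      | mul x y hx hy ihx ihy =>
        intro h3 h4
        have hx1 := h1 hx
        have hy1 := h1 hy
        have hx2 := h2 (cj_mem g _ hx)
        have hy2 := h2 (cj_mem g _ hy)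
        have e1 : (⟨x * y, h3⟩ : M) = ⟨x, hx1⟩ * ⟨y, hy1⟩ := rfl
        have e2 : (⟨g * (x * y) * g⁻¹, h4⟩ : M) = ⟨g * x * g⁻¹, hx2⟩ * ⟨g * y * g⁻¹, hy2⟩ := by
          apply Subtype.ext
          show g * (x * y) * g⁻¹ = g * x * g⁻¹ * (g * y * g⁻¹)
          group
        rw [e1, e2]
        have e3 : f (⟨x, hx1⟩ * ⟨y, hy1⟩) = f ⟨x, hx1⟩ * f ⟨y, hy1⟩ := map_mul f _ _
        have e4 : f (⟨g * x * g⁻¹, hx2⟩ * ⟨g * y * g⁻¹, hy2⟩) =
          f ⟨g * x * g⁻¹, hx2⟩ * f ⟨g * y * g⁻¹, hy2⟩ := map_mul f _ _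
        rw [e3, e4, ← mul_assoc, ihx hx1 hx2, mul_assoc, ihy hy1 hy2]
        exact (mul_assoc _ _ _).symm
      | inv x hx ih =>
        intro h3 h4
        have hx1 := h1 hx
        have hx2 := h2 (cj_mem g _ hx)
        have e1 : (⟨x⁻¹, h3⟩ : M) = (⟨x, hx1⟩)⁻¹ := rfl
        have e2 : (⟨g * x⁻¹ * g⁻¹, h4⟩ : M) = (⟨g * x * g⁻¹, hx2⟩)⁻¹ := by
          apply Subtype.ext
          show g * x⁻¹ * g⁻¹ = (g * x * g⁻¹)⁻¹
          group
        rw [e1, e2]
        have e3 : f (⟨x, hx1⟩)⁻¹ = (f ⟨x, hx1⟩)⁻¹ := map_inv f _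
        have e4 : f (⟨g * x * g⁻¹, hx2⟩)⁻¹ = (f ⟨g * x * g⁻¹, hx2⟩)⁻¹ := map_inv f _
        have h5 := ih hx1 hx2
        rw [e3, e4, eq_inv_mul_iff_mul_eq, ← mul_assoc, ← h5, mul_inv_cancel_right]
    have hf' : ∀ a : X, s * f ((a : M)) = f ((φ a : Y) : M) * s := by
      intro a
      exact hcl _ a.2 _ _
    exact ⟨HNNExtension.lift f s hf', fun m => HNNExtension.lift_of _ _ _ m,
      HNNExtension.lift_t _ _ _⟩

end ex

end Pool.Agent.V5helper8.GP
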