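import Pool.Agent.V5helper8.GP.Pth

/-!
# The HNN extension is in the class
-/

set_option autoImplicit false

namespace Pool.Agent.V5helper8.GP

open Multiplicative
open Q30.FJ
open Pool.Agent.Y110.FJ
open Pool.Agent.Y462.SS (Closed)

variable {C : ∀ (G : Type) [Group G], Prop}

section hyp

variable {G : Type} [Group G] {V : Type} {Λ : SimpleGraph V} {A : V → Subgroup G}
  {N : Subgroup G} {g : G} {π : V → V} {S₀ S : Set V} {M : Subgroup G} {P : Type} [Group P]
  {o : M →* P} {t : P} {d : P →* Multiplicative ℤ}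

theorem Sit.cr (h : Sit Λ A N g π S₀ S M o t d)
    (hcr : ∀ (v : V) (g : G), Maps g (A v) (A v) → CR C g (A v)) (k : ℤ) {v : V} (hv : v ∈ S)
    (x : P) (hx : Maps x (T A o t k v) (T A o t k v)) : CR C x (T A o t k v) := by
  obtain ⟨W, hW⟩ : ∃ W : Subgroup P, W = ((A v).subgroupOf M).map o := ⟨_, rfl⟩
  have hWm : ∀ y : P, y ∈ W ↔ ∃ a : M, (a : G) ∈ A v ∧ o a = y := by
    intro y
    rw [hW]
    exact Iff.rfl
  have hTW : T A o t k v = W.map (MulAut.conj (t ^ k)).toMonoidHom := by rw [hW]; rfl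
  have hTm : ∀ y : P, y ∈ W ↔ t ^ k * y * (t ^ k)⁻¹ ∈ T A o t k v := by
    intro y
    rw [hTW, mem_map_conj]
    have : (t ^ k)⁻¹ * (t ^ k * y * (t ^ k)⁻¹) * t ^ k = y := by group
    rw [this]
  rw [hTW]
  apply CR_conj
  obtain ⟨x', hx'⟩ : ∃ x' : P, x' = (t ^ k)⁻¹ * x * t ^ k := ⟨_, rfl⟩
  rw [← hx']
  have hmW : Maps x' W W := by
    intro y
    rw [hTm, hTm, hx', hx]
    have : t ^ k * ((t ^ k)⁻¹ * x * t ^ k * y * ((t ^ k)⁻¹ * x * t ^ k)⁻¹) * (t ^ k)⁻¹ =
      x * (t ^ k * y * (t ^ k)⁻¹) * x⁻¹ := by group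
    rw [this]
  obtain ⟨F, hF1, hF2⟩ := h.hn.univ G M.subtype g (by
    intro a b _ hb
    show g * (a : G) = (b : G) * g
    rw [hb, inv_mul_cancel_right])
  have hF1' : ∀ m : M, F (o m) = (m : G) := hF1
  have hFW : ∀ y ∈ W, F y ∈ A v := by
    intro y hy
    obtain ⟨a, ha, rfl⟩ := (hWm y).1 hy
    rw [hF1']
    exact ha
  have hWF : ∀ (a : G) (ha : a ∈ A v), o ⟨a, h.leM v hv ha⟩ ∈ W := by
    intro a ha
    exact (hWm _).2 ⟨_, ha, rfl⟩
  have hmA : Maps (F x') (A v) (A v) := by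
    intro a
    constructor
    · intro ha
      have h1 := hFW _ ((hmW _).1 (hWF a ha))
      rw [map_mul, map_mul, hF1', map_inv] at h1
      exact h1
    · intro ha
      have h1 := hWF _ ha
      have h2 : x'⁻¹ * o ⟨_, h.leM v hv ha⟩ * x' ∈ W := by
        rw [hmW]
        have e : x' * (x'⁻¹ * o ⟨_, h.leM v hv ha⟩ * x') * x'⁻¹ = o ⟨_, h.leM v hv ha⟩ := by group
        rw [e]
        exact h1
      have h3 := hFW _ h2
      rw [map_mul, map_mul, hF1', map_inv] at h3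
      have e : (F x')⁻¹ * (F x' * a * (F x')⁻¹) * F x' = a := by group
      have h4 : (F x')⁻¹ * (F x' * a * (F x')⁻¹) * F x' ∈ A v := h3
      rwa [e] at h4
  obtain ⟨P', _, f, p, hP', hf, hfp⟩ := hcr v (F x') hmA
  refine ⟨P', inferInstance, f.comp (MonoidHom.mk' (fun y : W => (⟨F y, hFW y y.2⟩ : A v)) ?_),
    p, hP', ?_, ?_⟩
  · intro y z
    apply Subtype.ext
    show F ((y : P) * z) = F y * F z
    rw [map_mul]
  · refine hf.comp ?_
    intro y z hyz
    have h1 : F (y : P) = F z := congrArg Subtype.val hyz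
    obtain ⟨a, -, ha⟩ := (hWm y).1 y.2
    obtain ⟨b, -, hb⟩ := (hWm z).1 z.2
    apply Subtype.ext
    rw [← ha, ← hb] at h1 ⊢
    rw [hF1', hF1'] at h1
    rw [Subtype.ext h1]
  · intro y z hyz
    apply hfp
    show F (z : P) = F x' * F y * (F x')⁻¹
    rw [hyz, map_mul, map_mul, map_inv]

theorem Sit.hyp (h : Sit Λ A N g π S₀ S M o t d)
    (hcr : ∀ (v : V) (g : G), Maps g (A v) (A v) → CR C g (A v)) :
    Hyp C h.gr (fun B : U A S o t => B.1) d.ker where
  prod := h.ker_prod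
  ne := by
    rintro ⟨_, k, v, hv, rfl⟩
    exact h.T_ne k hv
  perm := by
    rintro x ⟨_, k, v, hv, rfl⟩
    refine ⟨⟨T A o t (toAdd (d x) + k) v, _, v, hv, rfl⟩, t ^ (toAdd (d x)) * x⁻¹, ?_, ?_⟩
    · rw [MonoidHom.mem_ker, map_mul, deg_zpow h.ht, map_inv, ofAdd_toAdd, mul_inv_cancel]
    · rw [inv_mul_cancel_right]
      exact Maps_T _ _ _
  cr := by
    rintro ⟨_, k, v, hv, rfl⟩ x hx
    exact h.cr hcr k hv x hx

/-- **the HNN extension is in the class** -/
theorem Sit.mem (h : Sit Λ A N g π S₀ S M o t d) (hF : ClosedF C)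
    (hcr : ∀ (v : V) (g : G), Maps g (A v) (A v) → CR C g (A v)) (s : Finset V)
    (hs : ∀ v ∈ S₀, v ∈ s) : C P := by
  have hn : (d.ker).Normal := inferInstance
  refine gpk_main hF (h.hyp hcr) ?_ ?_
  · exact hF.base.base.of_injective _ (Multiplicative ℤ) (QuotientGroup.kerLift d)
      (QuotientGroup.kerLift_injective d) hF.base.base.int
  · intro x B
    refine ⟨(s.card + 1).factorial, Nat.factorial_pos _, ?_⟩
    rintro m D hm ⟨j, v, hv, w, hw, hvw, hB, hD⟩
    obtain ⟨r, hr⟩ : ∃ r : ℤ, r = ((s.card + 1).factorial : ℤ) * (m * toAdd (d x)) := ⟨_, rfl⟩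
    have h1 : Mv d.ker (t ^ r) B.1 D.1 := by
      have h2 : x ^ (((s.card + 1).factorial : ℤ) * m) =
          (x ^ (((s.card + 1).factorial : ℤ) * m) * (t ^ r)⁻¹) * t ^ r := by group
      rw [h2] at hm
      refine Mv.of_mul ?_ hm
      rw [MonoidHom.mem_ker, map_mul, map_inv, deg_zpow h.ht, map_zpow, mul_inv_eq_one]
      apply toAdd.injective
      rw [toAdd_zpow, toAdd_ofAdd, hr, smul_eq_mul, mul_assoc]
    have h3 : Mv d.ker (t ^ r) (T A o t j v) (T A o t (r + j) v) :=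
      ⟨1, d.ker.one_mem, by rw [one_mul]; exact Maps_T _ _ _⟩
    rw [hB, hD] at h1
    have h4 : T A o t j w = T A o t (r + j) v := by
      have h5 := Mv.eq (Λ := h.gr) (A := fun B : U A S o t => B.1) h.ker_prod (h.hyp hcr).ne
        (v := ⟨T A o t j v, j, v, hv, rfl⟩) (w := ⟨T A o t j w, j, w, hw, rfl⟩)
        (w' := ⟨T A o t (r + j) v, r + j, v, hv, rfl⟩) h1 h3
      exact congrArg Subtype.val h5
    have h6 : T A o t r v = T A o t 0 w := by
      have h7 := T_shift (-j) _ _ _ _ h4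
      rw [neg_add_cancel, add_comm r j, neg_add_cancel_left] at h7
      exact h7.symm
    rcases lt_trichotomy r 0 with hr0 | hr0 | hr0
    · obtain ⟨n, hn⟩ : ∃ n : ℕ, (n : ℤ) = -r := ⟨(-r).toNat, by omega⟩
      have h7 := T_shift n _ _ _ _ h6
      have e1 : (n : ℤ) + r = 0 := by omega
      rw [e1, add_zero] at h7
      obtain ⟨h8, h9⟩ := h.path n hv h7.symm
      have hd : (s.card + 1).factorial ∣ n := by
        have : ((s.card + 1).factorial : ℤ) ∣ (n : ℤ) := by
          rw [hn, hr]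
          exact (Dvd.intro _ rfl).neg_right
        exact_mod_cast this
      have h10 := cycle h.pi_inj s hs (by omega) hd h8
      exact hvw.ne (h9.symm.trans h10)
    · rw [hr0] at h6
      exact hvw.ne (h.T_inj hv hw h6)
    · obtain ⟨n, hn⟩ : ∃ n : ℕ, (n : ℤ) = r := ⟨r.toNat, by omega⟩
      rw [← hn] at h6
      obtain ⟨h8, h9⟩ := h.path n hw h6
      have hd : (s.card + 1).factorial ∣ n := by
        have : ((s.card + 1).factorial : ℤ) ∣ (n : ℤ) := by
          rw [hn, hr]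
          exact Dvd.intro _ rfl
        exact_mod_cast this
      have h10 := cycle h.pi_inj s hs (by omega) hd h8
      exact hvw.ne (h10.symm.trans h9)

end hyp

end Pool.Agent.V5helper8.GP
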