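import Pool.Agent.V5helper8.GP.Fam

/-!
# The kernel of the degree of the HNN extension is a graph product
-/

set_option autoImplicit false

namespace Pool.Agent.V5helper8.GP

open Multiplicative
open Q30.FJ

/-- the situation -/
structure Sit {G : Type} [Group G] {V : Type} (Λ : SimpleGraph V) (A : V → Subgroup G)
    (N : Subgroup G) (g : G) (π : V → V) (S₀ S : Set V) (M : Subgroup G) {P : Type} [Group P]
    (o : M →* P) (t : P) (d : P →* Multiplicative ℤ) : Prop where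
  prod : GProd Λ A N
  ne : ∀ v, A v ≠ ⊥
  maps : ∀ v ∈ S₀, Maps g (A v) (A (π v))
  sub : ∀ v ∈ S₀, v ∈ S ∧ π v ∈ S
  leM : ∀ v ∈ S, A v ≤ M
  genM : ∀ Q : Subgroup G, (∀ v ∈ S, A v ≤ Q) → M ≤ Q
  hn : HN g {x | ∃ v ∈ S₀, x ∈ A v} M P o t
  ho : ∀ m, d (o m) = 1
  ht : d t = ofAdd 1

/-- the conjugates of the vertex groups -/
def T {G : Type} [Group G] {V : Type} (A : V → Subgroup G) {M : Subgroup G} {P : Type} [Group P]
    (o : M →* P) (t : P) (k : ℤ) (v : V) : Subgroup P :=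
  (((A v).subgroupOf M).map o).map (MulAut.conj (t ^ k)).toMonoidHom

section t

variable {G : Type} [Group G] {V : Type} {Λ : SimpleGraph V} {A : V → Subgroup G}
  {N : Subgroup G} {g : G} {π : V → V} {S₀ S : Set V} {M : Subgroup G} {P : Type} [Group P]
  {o : M →* P} {t : P} {d : P →* Multiplicative ℤ}

theorem mem_T {k : ℤ} {v : V} {x : P} : x ∈ T A o t k v ↔
    ∃ a : M, (a : G) ∈ A v ∧ t ^ k * o a * (t ^ k)⁻¹ = x := by
  constructor
  · rintro ⟨_, ⟨a, ha, rfl⟩, rfl⟩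
    exact ⟨a, ha, rfl⟩
  · rintro ⟨a, ha, rfl⟩
    exact ⟨_, ⟨a, ha, rfl⟩, rfl⟩

theorem T_conj (j k : ℤ) (v : V) {x : P} (hx : x ∈ T A o t k v) :
    t ^ j * x * (t ^ j)⁻¹ ∈ T A o t (j + k) v := by
  obtain ⟨a, ha, rfl⟩ := mem_T.1 hx
  refine mem_T.2 ⟨a, ha, ?_⟩
  rw [zpow_add]
  group

theorem Maps_T (j k : ℤ) (v : V) : Maps (t ^ j) (T A o t k v) (T A o t (j + k) v) := by
  intro x
  refine ⟨T_conj j k v, fun hx => ?_⟩
  have h1 := T_conj (-j) (j + k) v hx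
  rw [neg_add_cancel_left] at h1
  have h2 : t ^ (-j) * (t ^ j * x * (t ^ j)⁻¹) * (t ^ (-j))⁻¹ = x := by group
  rwa [h2] at h1

theorem Sit.T_move (h : Sit Λ A N g π S₀ S M o t d) (k : ℤ) {v : V} (hv : v ∈ S₀) :
    T A o t (k + 1) v = T A o t k (π v) := by
  have hm := h.maps v hv
  obtain ⟨hvS, hpS⟩ := h.sub v hv
  have key : ∀ x y : M, (x : G) ∈ A v → (y : G) = g * x * g⁻¹ →
      t ^ (k + 1) * o x * (t ^ (k + 1))⁻¹ = t ^ k * o y * (t ^ k)⁻¹ := by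
    intro x y hx hy
    have h1 := h.hn.move x y ⟨v, hv, hx⟩ hy
    rw [zpow_add_one, mul_assoc (t ^ k), h1]
    group
  ext x
  rw [mem_T, mem_T]
  constructor
  · rintro ⟨a, ha, rfl⟩
    have hb : g * (a : G) * g⁻¹ ∈ A (π v) := (hm a).1 ha
    exact ⟨⟨g * a * g⁻¹, h.leM _ hpS hb⟩, hb, (key a _ ha rfl).symm⟩
  · rintro ⟨b, hb, rfl⟩
    have e1 : g * (g⁻¹ * (b : G) * g) * g⁻¹ = b := by group
    have ha : g⁻¹ * (b : G) * g ∈ A v := by
      rw [hm, e1]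
      exact hb
    exact ⟨⟨g⁻¹ * b * g, h.leM _ hvS ha⟩, ha, key _ b ha e1.symm⟩

theorem Sit.T_inj (h : Sit Λ A N g π S₀ S M o t d) {k : ℤ} {v w : V} (hv : v ∈ S) (hw : w ∈ S)
    (he : T A o t k v = T A o t k w) : v = w := by
  have key : ∀ v w : V, v ∈ S → T A o t k v = T A o t k w → A v ≤ A w := by
    intro v w hv he a ha
    have h1 : t ^ k * o ⟨a, h.leM v hv ha⟩ * (t ^ k)⁻¹ ∈ T A o t k v := mem_T.2 ⟨_, ha, rfl⟩
    rw [he] at h1
    obtain ⟨b, hb, hab⟩ := mem_T.1 h1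
    have h2 : o b = o ⟨a, h.leM v hv ha⟩ := mul_left_cancel (mul_right_cancel hab)
    have h3 := congrArg Subtype.val (h.hn.inj h2)
    have h4 : (b : G) = a := h3
    rw [← h4]
    exact hb
  have hA : A v = A w := le_antisymm (key v w hv he) (key w v hw he.symm)
  obtain ⟨p, hp⟩ := h.prod.retr
  refine hp.conj_eq h.ne N.one_mem ?_
  rw [hA]
  exact Maps.refl _

theorem Sit.T_ne (h : Sit Λ A N g π S₀ S M o t d) (k : ℤ) {v : V} (hv : v ∈ S) :
    T A o t k v ≠ ⊥ := by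
  intro hb
  apply h.ne v
  rw [Subgroup.eq_bot_iff_forall] at hb ⊢
  intro a ha
  have h1 := hb _ (mem_T.2 ⟨⟨a, h.leM v hv ha⟩, ha, rfl⟩)
  have h2 : o ⟨a, h.leM v hv ha⟩ = 1 := by
    rw [mul_inv_eq_one, mul_eq_left] at h1
    exact h1
  have h3 := h.hn.inj (h2.trans (map_one o).symm)
  exact congrArg Subtype.val h3

theorem Sit.T_ker (h : Sit Λ A N g π S₀ S M o t d) (k : ℤ) (v : V) : T A o t k v ≤ d.ker := by
  intro x hx
  obtain ⟨a, -, rfl⟩ := mem_T.1 hx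
  exact deg_conj h.ho k a

theorem Sit.M_le (h : Sit Λ A N g π S₀ S M o t d) : M ≤ N := h.genM N fun v _ => h.prod.le v

end t

/-- the vertices -/
def U {G : Type} [Group G] {V : Type} (A : V → Subgroup G) (S : Set V) {M : Subgroup G}
    {P : Type} [Group P] (o : M →* P) (t : P) : Type :=
  {B : Subgroup P // ∃ k : ℤ, ∃ v ∈ S, B = T A o t k v}

section ker

variable {G : Type} [Group G] {V : Type} {Λ : SimpleGraph V} {A : V → Subgroup G}
  {N : Subgroup G} {g : G} {π : V → V} {S₀ S : Set V} {M : Subgroup G} {P : Type} [Group P]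
  {o : M →* P} {t : P} {d : P →* Multiplicative ℤ}

/-- the graph -/
def Sit.gr (h : Sit Λ A N g π S₀ S M o t d) : SimpleGraph (U A S o t) where
  Adj B D := ∃ k : ℤ, ∃ v ∈ S, ∃ w ∈ S, Λ.Adj v w ∧ B.1 = T A o t k v ∧ D.1 = T A o t k w
  symm := ⟨fun _ _ ⟨k, v, hv, w, hw, hvw, hB, hD⟩ => ⟨k, w, hw, v, hv, hvw.symm, hD, hB⟩⟩
  loopless := ⟨by
    rintro B ⟨k, v, hv, w, hw, hvw, hB, hD⟩
    exact hvw.ne (h.T_inj hv hw (hB.symm.trans hD))⟩

theorem Sit.ker_gen (h : Sit Λ A N g π S₀ S M o t d) (Q : Subgroup P)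
    (hQ : ∀ B : U A S o t, B.1 ≤ Q) : d.ker ≤ Q := by
  obtain ⟨R, hR⟩ : ∃ R : Subgroup P, R = ⨆ B : U A S o t, B.1 := ⟨_, rfl⟩
  have hRQ : R ≤ Q := by rw [hR]; exact iSup_le hQ
  have hTR : ∀ (k : ℤ) (v : V), v ∈ S → T A o t k v ≤ R := by
    intro k v hv
    rw [hR]
    exact le_iSup (fun B : U A S o t => B.1) ⟨T A o t k v, k, v, hv, rfl⟩
  have hRt : ∀ (j : ℤ) (x : P), x ∈ R → t ^ j * x * (t ^ j)⁻¹ ∈ R := by
    intro j x hx
    have h1 : R ≤ R.comap (MulAut.conj (t ^ j)).toMonoidHom := by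
      have h2 : (⨆ B : U A S o t, B.1) ≤ R.comap (MulAut.conj (t ^ j)).toMonoidHom := by
        refine iSup_le ?_
        rintro ⟨_, k, v, hv, rfl⟩ y hy
        exact hTR _ v hv (T_conj j k v hy)
      rwa [← hR] at h2
    exact h1 hx
  have hMR : ∀ m : M, o m ∈ R := by
    have h1 : M ≤ (R.comap o).map M.subtype := by
      apply h.genM
      intro v hv a ha
      refine ⟨⟨a, h.leM v hv ha⟩, ?_, rfl⟩
      apply hTR 0 v hv
      refine mem_T.2 ⟨⟨a, h.leM v hv ha⟩, ha, ?_⟩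
      simp
    intro m
    obtain ⟨y, hy, hym⟩ := h1 m.2
    have h2 : y = m := Subtype.ext hym
    rw [← h2]
    exact hy
  let W : Subgroup P :=
    { carrier := {x | x * (t ^ (toAdd (d x)))⁻¹ ∈ R}
      one_mem' := by simp
      mul_mem' := by
        intro x y hx hy
        have hx' : x * (t ^ (toAdd (d x)))⁻¹ ∈ R := hx
        have hy' : y * (t ^ (toAdd (d y)))⁻¹ ∈ R := hy
        show x * y * (t ^ (toAdd (d (x * y))))⁻¹ ∈ R
        have h1 := R.mul_mem hx' (hRt (toAdd (d x)) _ hy')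
        have h2 : x * (t ^ (toAdd (d x)))⁻¹ * (t ^ (toAdd (d x)) * (y * (t ^ (toAdd (d y)))⁻¹) *
            (t ^ (toAdd (d x)))⁻¹) = x * y * (t ^ (toAdd (d (x * y))))⁻¹ := by
          rw [map_mul, toAdd_mul, add_comm, zpow_add]
          group
        rwa [h2] at h1
      inv_mem' := by
        intro x hx
        have hx' : x * (t ^ (toAdd (d x)))⁻¹ ∈ R := hx
        show x⁻¹ * (t ^ (toAdd (d x⁻¹)))⁻¹ ∈ R
        have h1 := hRt (-(toAdd (d x))) _ (R.inv_mem hx')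
        have h2 : t ^ (-(toAdd (d x))) * (x * (t ^ (toAdd (d x)))⁻¹)⁻¹ *
            (t ^ (-(toAdd (d x))))⁻¹ = x⁻¹ * (t ^ (toAdd (d x⁻¹)))⁻¹ := by
          rw [map_inv, toAdd_inv]
          group
        rwa [h2] at h1 }
  have hW : ∀ x, x ∈ W := by
    apply h.hn.ind
    · show t * (t ^ (toAdd (d t)))⁻¹ ∈ R
      rw [h.ht, toAdd_ofAdd, zpow_one, mul_inv_cancel]
      exact R.one_mem
    · intro m
      show o m * (t ^ (toAdd (d (o m))))⁻¹ ∈ R
      rw [h.ho, toAdd_one, zpow_zero, inv_one, mul_one]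
      exact hMR m
  intro x hx
  have h1 : x * (t ^ (toAdd (d x)))⁻¹ ∈ R := hW x
  have h2 : d x = 1 := hx
  rw [h2, toAdd_one, zpow_zero, inv_one, mul_one] at h1
  exact hRQ h1

theorem Sit.ker_prod (h : Sit Λ A N g π S₀ S M o t d) :
    GProd h.gr (fun B : U A S o t => B.1) d.ker where
  le := by
    rintro ⟨_, k, v, hv, rfl⟩
    exact h.T_ker k v
  gen := h.ker_gen
  comm := by
    rintro B D ⟨k, v, hv, w, hw, hvw, hB, hD⟩ x hx y hy
    rw [hB] at hx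
    rw [hD] at hy
    obtain ⟨a, ha, rfl⟩ := mem_T.1 hx
    obtain ⟨b, hb, rfl⟩ := mem_T.1 hy
    have h1 : a * b = b * a := Subtype.ext (h.prod.comm v w hvw a ha b hb)
    have h2 : o a * o b = o b * o a := by rw [← map_mul, h1, map_mul]
    have e1 : t ^ k * o a * (t ^ k)⁻¹ * (t ^ k * o b * (t ^ k)⁻¹) =
      t ^ k * (o a * o b) * (t ^ k)⁻¹ := by group
    have e2 : t ^ k * o b * (t ^ k)⁻¹ * (t ^ k * o a * (t ^ k)⁻¹) =
      t ^ k * (o b * o a) * (t ^ k)⁻¹ := by group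
    rw [e1, e2, h2]
  univ := by
    classical
    intro H _ f hf
    have hcong : ∀ (B D : U A S o t) (x : B.1) (y : D.1), B = D → (x : P) = y → f B x = f D y := by
      rintro B D x y rfl hxy
      rw [Subtype.ext hxy]
    let vx : ℤ → (v : V) → v ∈ S → U A S o t := fun k v hv => ⟨T A o t k v, k, v, hv, rfl⟩
    let em : (k : ℤ) → (v : V) → (hv : v ∈ S) → A v →* (vx k v hv).1 := fun k v hv =>
      MonoidHom.mk' (fun a => ⟨t ^ k * o ⟨a, h.leM v hv a.2⟩ * (t ^ k)⁻¹, mem_T.2 ⟨_, a.2, rfl⟩⟩)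
        (by
          intro a b
          apply Subtype.ext
          show t ^ k * o (⟨a, h.leM v hv a.2⟩ * ⟨b, h.leM v hv b.2⟩) * (t ^ k)⁻¹ =
            t ^ k * o ⟨a, h.leM v hv a.2⟩ * (t ^ k)⁻¹ * (t ^ k * o ⟨b, h.leM v hv b.2⟩ * (t ^ k)⁻¹)
          rw [map_mul]
          group)
    let f' : ℤ → (v : V) → A v →* H := fun k v =>
      if hv : v ∈ S then (f (vx k v hv)).comp (em k v hv) else 1
    have hf1 : ∀ (k : ℤ) (v : V) (hv : v ∈ S) (a : A v), f' k v a = f (vx k v hv) (em k v hv a) := by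
      intro k v hv a
      have : f' k v = (f (vx k v hv)).comp (em k v hv) := dif_pos hv
      rw [this]
      rfl
    have hf2 : ∀ (k : ℤ) (v : V), v ∉ S → ∀ a : A v, f' k v a = 1 := by
      intro k v hv a
      have : f' k v = 1 := dif_neg hv
      rw [this]
      rfl
    have hex : ∀ k : ℤ, ∃ φ : N →* H, ∀ v (a : A v), φ ⟨a, h.prod.le v a.2⟩ = f' k v a := by
      intro k
      apply h.prod.univ
      intro v w hvw a b
      by_cases hv : v ∈ S
      · by_cases hw : w ∈ S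
        · rw [hf1 k v hv, hf1 k w hw]
          exact hf _ _ ⟨k, v, hv, w, hw, hvw, rfl, rfl⟩ _ _
        · rw [hf2 k w hw b, mul_one, one_mul]
      · rw [hf2 k v hv a, mul_one, one_mul]
    choose φ hφ using hex
    have hF : ∀ (k : ℤ) (x : M) (v : V) (hv : v ∈ S) (hx : (x : G) ∈ A v),
        (φ k).comp (Subgroup.inclusion h.M_le) x =
          f (vx k v hv) ⟨t ^ k * o x * (t ^ k)⁻¹, mem_T.2 ⟨x, hx, rfl⟩⟩ := by
      intro k x v hv hx
      exact (hφ k v ⟨x, hx⟩).trans (hf1 k v hv ⟨x, hx⟩)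
    obtain ⟨ψ, hψ⟩ := h.hn.fam h.ho h.ht (fun k => (φ k).comp (Subgroup.inclusion h.M_le)) (by
      rintro k x y ⟨v, hv, hx⟩ hy
      obtain ⟨hvS, hpS⟩ := h.sub v hv
      have hyA : (y : G) ∈ A (π v) := by
        rw [hy]
        exact (h.maps v hv x).1 hx
      rw [hF (k + 1) x v hvS hx, hF k y (π v) hpS hyA]
      apply hcong
      · exact Subtype.ext (h.T_move k hv)
      · show t ^ (k + 1) * o x * (t ^ (k + 1))⁻¹ = t ^ k * o y * (t ^ k)⁻¹
        rw [zpow_add_one, mul_assoc (t ^ k), h.hn.move x y ⟨v, hv, hx⟩ hy]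
        group)
    refine ⟨ψ, ?_⟩
    rintro ⟨B, k, v, hv, rfl⟩ ⟨x, hx⟩
    obtain ⟨a, ha, rfl⟩ := mem_T.1 hx
    exact (hψ k a).trans (hF k a v hv ha)

end ker

end Pool.Agent.V5helper8.GP
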