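import Pool.Agent.V5helper8.GP.Hy

/-!
# Kernels which are graph products: the main theorem
-/

set_option autoImplicit false

namespace Pool.Agent.V5helper8.GP

open Multiplicative
open Q30.FJ
open Pool.Agent.Y110.FJ
open Pool.Agent.Y462.SS (Closed)

variable {C : ∀ (G : Type) [Group G], Prop}

section main

variable {G : Type} [Group G] {V : Type} {Λ : SimpleGraph V} {A : V → Subgroup G}
  {N : Subgroup G}

/-- each element of the graph product lies in the subgroup generated by finitely many vertex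
groups -/
theorem fin_supp (h : GProd Λ A N) (E : Set G) (hE : E.Finite) (hEN : E ⊆ N) :
    ∃ s : Finset V, ∀ x ∈ E, x ∈ ⨆ v ∈ s, A v := by
  classical
  have hdir : Directed (· ≤ ·) (fun s : Finset V => ⨆ v ∈ s, A v) := by
    intro s t
    refine ⟨s ∪ t, ?_, ?_⟩
    · exact biSup_mono fun v hv => Finset.mem_union_left _ hv
    · exact biSup_mono fun v hv => Finset.mem_union_right _ hv
  have hex : ∀ x ∈ N, ∃ s : Finset V, x ∈ ⨆ v ∈ s, A v := by
    have h1 : N ≤ ⨆ s : Finset V, ⨆ v ∈ s, A v := by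
      apply h.gen
      intro v
      refine le_trans ?_ (le_iSup _ {v})
      simp
    intro x hx
    exact (Subgroup.mem_iSup_of_directed hdir).1 (h1 hx)
  have h2 : ∀ x : E, ∃ s : Finset V, (x : G) ∈ ⨆ v ∈ s, A v := fun x => hex x (hEN x.2)
  choose σ hσ using h2
  have := hE.fintype
  refine ⟨Finset.univ.biUnion σ, fun x hx => ?_⟩
  have h3 := hσ ⟨x, hx⟩
  have h4 : (⨆ v ∈ σ ⟨x, hx⟩, A v) ≤ ⨆ v ∈ Finset.univ.biUnion σ, A v :=
    biSup_mono fun v hv => Finset.mem_biUnion.2 ⟨_, Finset.mem_univ _, hv⟩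
  exact h4 h3

variable [N.Normal]

/-- elements which permute the vertex groups up to elements of `N`, locally -/
theorem real_perm (hF : ClosedF C) (h : Hyp C Λ A N) (g : G)
    (hg : ∀ s : Finset V, ∃ n ∈ N, ∀ v ∈ s, ∃ w, Maps (n * g) (A v) (A w)) (E : Set G)
    (hE : E.Finite) (hEN : E ⊆ N) : Realized C g E := by
  classical
  obtain ⟨s, hs⟩ := fin_supp h.prod E hE hEN
  obtain ⟨n, hn, hmap⟩ := hg s
  obtain ⟨γ, hγ⟩ : ∃ γ, γ = n * g := ⟨_, rfl⟩
  rw [← hγ] at hmap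
  have hπ : ∃ π : V → V, ∀ v ∈ s, Maps γ (A v) (A (π v)) := by
    refine ⟨fun v => if hv : v ∈ s then (hmap v hv).choose else v, fun v hv => ?_⟩
    simp only [dif_pos hv]
    exact (hmap v hv).choose_spec
  obtain ⟨π, hπ⟩ := hπ
  obtain ⟨s', hs'⟩ := fin_supp h.prod {n} (Set.finite_singleton n) (by simpa using hn)
  obtain ⟨S, hS⟩ : ∃ S : Set V, ∀ v, v ∈ S ↔ v ∈ s ∨ v ∈ s.image π ∨ v ∈ s' :=
    ⟨{v | v ∈ s ∨ v ∈ s.image π ∨ v ∈ s'}, fun v => Iff.rfl⟩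
  obtain ⟨M, hM⟩ : ∃ M : Subgroup G, M = ⨆ v ∈ S, A v := ⟨_, rfl⟩
  have hleM : ∀ v ∈ S, A v ≤ M := by
    intro v hv
    rw [hM]
    exact le_iSup₂ (f := fun v (_ : v ∈ S) => A v) v hv
  have hcl1 : Subgroup.closure {x | ∃ v ∈ (s : Set V), x ∈ A v} ≤ M := by
    rw [Subgroup.closure_le]
    rintro x ⟨v, hv, hx⟩
    exact hleM v ((hS v).2 (Or.inl hv)) hx
  have hcl2 : Subgroup.closure ((fun x => γ * x * γ⁻¹) '' {x | ∃ v ∈ (s : Set V), x ∈ A v}) ≤ M := by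
    rw [Subgroup.closure_le]
    rintro _ ⟨x, ⟨v, hv, hx⟩, rfl⟩
    exact hleM (π v) ((hS _).2 (Or.inr (Or.inl (Finset.mem_image_of_mem π hv)))) ((hπ v hv x).1 hx)
  obtain ⟨P, _, o, t, hhn⟩ := ex γ {x | ∃ v ∈ (s : Set V), x ∈ A v} M hcl1 hcl2
  obtain ⟨d, ho, ht⟩ := hhn.deg
  have hsit : Sit Λ A N γ π (s : Set V) S M o t d :=
    { prod := h.prod
      ne := h.ne
      maps := hπ
      sub := fun v hv => ⟨(hS v).2 (Or.inl hv),
        (hS _).2 (Or.inr (Or.inl (Finset.mem_image_of_mem π hv)))⟩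
      leM := hleM
      genM := by
        intro Q hQ
        rw [hM]
        exact iSup₂_le hQ
      hn := hhn
      ho := ho
      ht := ht }
  have hP : C P := hsit.mem hF h.cr s (fun v hv => hv)
  -- the stable letter acts on the subgroup generated by the first vertex groups
  have hsup1 : ∀ x ∈ ⨆ v ∈ s, A v, x ∈ M := by
    intro x hx
    have h1 : (⨆ v ∈ s, A v) ≤ M := iSup₂_le fun v hv => hleM v ((hS v).2 (Or.inl hv))
    exact h1 hx
  have hnM : n ∈ M := by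
    have h1 : (⨆ v ∈ s', A v) ≤ M := iSup₂_le fun v hv => hleM v ((hS v).2 (Or.inr (Or.inr hv)))
    exact h1 (hs' n rfl)
  have hmove : ∀ x ∈ ⨆ v ∈ s, A v, ∀ hx : x ∈ M, ∃ hy : γ * x * γ⁻¹ ∈ M,
      t * o ⟨x, hx⟩ = o ⟨γ * x * γ⁻¹, hy⟩ * t := by
    let R : Subgroup G :=
      { carrier := {x | ∃ (hx : x ∈ M) (hy : γ * x * γ⁻¹ ∈ M),
          t * o ⟨x, hx⟩ = o ⟨γ * x * γ⁻¹, hy⟩ * t}
        one_mem' := by
          refine ⟨M.one_mem, by simp, ?_⟩
          have e1 : (⟨1, M.one_mem⟩ : M) = 1 := rfl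
          have e2 : (⟨γ * 1 * γ⁻¹, by simp⟩ : M) = 1 := Subtype.ext (by simp)
          rw [e1, e2, map_one, mul_one, one_mul]
        mul_mem' := by
          rintro x y ⟨hx, hx', h1⟩ ⟨hy, hy', h2⟩
          have e2 : γ * (x * y) * γ⁻¹ = (γ * x * γ⁻¹) * (γ * y * γ⁻¹) := by group
          have hxy : γ * (x * y) * γ⁻¹ ∈ M := by
            rw [e2]
            exact M.mul_mem hx' hy'
          refine ⟨M.mul_mem hx hy, hxy, ?_⟩
          have e1 : (⟨x * y, M.mul_mem hx hy⟩ : M) = ⟨x, hx⟩ * ⟨y, hy⟩ := rfl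
          have e3 : (⟨γ * (x * y) * γ⁻¹, hxy⟩ : M) = ⟨γ * x * γ⁻¹, hx'⟩ * ⟨γ * y * γ⁻¹, hy'⟩ :=
            Subtype.ext e2
          rw [e1, e3, map_mul, map_mul, ← mul_assoc, h1, mul_assoc, h2]
          exact (mul_assoc _ _ _).symm
        inv_mem' := by
          rintro x ⟨hx, hx', h1⟩
          have e2 : γ * x⁻¹ * γ⁻¹ = (γ * x * γ⁻¹)⁻¹ := by group
          have hxi : γ * x⁻¹ * γ⁻¹ ∈ M := by
            rw [e2]
            exact M.inv_mem hx'
          refine ⟨M.inv_mem hx, hxi, ?_⟩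
          have e1 : (⟨x⁻¹, M.inv_mem hx⟩ : M) = (⟨x, hx⟩)⁻¹ := rfl
          have e3 : (⟨γ * x⁻¹ * γ⁻¹, hxi⟩ : M) = (⟨γ * x * γ⁻¹, hx'⟩)⁻¹ := Subtype.ext e2
          rw [e1, e3, map_inv, map_inv, eq_inv_mul_iff_mul_eq, ← mul_assoc, ← h1,
            mul_inv_cancel_right] }
    have hR : (⨆ v ∈ s, A v) ≤ R := by
      refine iSup₂_le fun v hv a ha => ?_
      have haM := hleM v ((hS v).2 (Or.inl hv)) ha
      have hbM := hleM (π v) ((hS _).2 (Or.inr (Or.inl (Finset.mem_image_of_mem π hv))))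
        ((hπ v hv a).1 ha)
      exact ⟨haM, hbM, hhn.move ⟨a, haM⟩ ⟨_, hbM⟩ ⟨v, hv, ha⟩ rfl⟩
    intro x hx _
    obtain ⟨_, h2, h3⟩ := hR hx
    exact ⟨h2, h3⟩
  have hcj : ∀ x ∈ E, g * x * g⁻¹ ∈ M := by
    intro x hx
    obtain ⟨h1, -⟩ := hmove x (hs x hx) (hsup1 x (hs x hx))
    have h2 : g * x * g⁻¹ = n⁻¹ * (γ * x * γ⁻¹) * n := by
      rw [hγ]
      group
    rw [h2]
    exact M.mul_mem (M.mul_mem (M.inv_mem hnM) h1) hnM
  have hcl : Subgroup.closure (E ∪ (fun x => g * x * g⁻¹) '' E) ≤ M := by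
    rw [Subgroup.closure_le]
    rintro x (hx | ⟨y, hy, rfl⟩)
    · exact hsup1 x (hs x hx)
    · exact hcj y hy
  refine ⟨P, inferInstance, o.comp (Subgroup.inclusion hcl), (o ⟨n, hnM⟩)⁻¹ * t, hP,
    hhn.inj.comp (Subgroup.inclusion_injective hcl), ?_⟩
  intro x y hxE hy
  obtain ⟨h1, h2⟩ := hmove x (hs x hxE) (hcl x.2)
  have e1 : Subgroup.inclusion hcl y = (⟨n, hnM⟩ : M)⁻¹ * ⟨γ * x * γ⁻¹, h1⟩ * ⟨n, hnM⟩ := by
    apply Subtype.ext
    show (y : G) = n⁻¹ * (γ * x * γ⁻¹) * n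
    rw [hy, hγ]
    group
  show o (Subgroup.inclusion hcl y) = (o ⟨n, hnM⟩)⁻¹ * t * o ⟨x, hcl x.2⟩ *
    ((o ⟨n, hnM⟩)⁻¹ * t)⁻¹
  rw [e1, map_mul, map_mul, map_inv, mul_assoc ((o ⟨n, hnM⟩)⁻¹) t, h2]
  group

/-- elements some power of which maps no vertex to an adjacent one -/
theorem real_sep (hF : ClosedF C) (h : Hyp C Λ A N) (hQ : C (G ⧸ N)) (g : G)
    (hg : ∀ v : V, ∃ k : ℕ, 0 < k ∧ ∀ (m : ℤ) (w : V),
      Mv N (g ^ ((k : ℤ) * m)) (A v) (A w) → ¬ Λ.Adj v w) (E : Set G)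
    (hEN : E ⊆ N) : Realized C g E := by
  obtain ⟨B, hB⟩ : ∃ B, B = N ⊔ Subgroup.zpowers g := ⟨_, rfl⟩
  have hBm : ∀ x, x ∈ B ↔ ∃ n ∈ N, ∃ j : ℤ, x = n * g ^ j := by
    intro x
    rw [hB, mem_sup_zpowers]
  have hNB : N ≤ B := by
    rw [hB]
    exact le_sup_left
  have hgB : g ∈ B := by
    rw [hB]
    exact Subgroup.mem_sup_right (Subgroup.mem_zpowers g)
  obtain ⟨hyp, hmv⟩ := h.sub B hNB
  have hCB : C B := by
    refine gpk_main hF hyp ?_ ?_
    · refine hF.base.base.of_injective _ (G ⧸ N) (QuotientGroup.map (N.subgroupOf B) N B.subtype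
        (fun x hx => hx)) ?_ hQ
      rw [injective_iff_map_eq_one]
      intro x
      induction x using QuotientGroup.induction_on with
      | H z =>
        intro hz
        have h1 : z.1 ∈ N := (QuotientGroup.eq_one_iff _).1 hz
        exact (QuotientGroup.eq_one_iff _).2 h1
    · intro b v
      obtain ⟨k, hk0, hk⟩ := hg v
      refine ⟨k, hk0, fun m w hm => ?_⟩
      obtain ⟨n, hn, j, hj⟩ := (hBm b.1).1 b.2
      have h1 := hmv _ v w hm
      rw [Subgroup.coe_zpow] at h1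
      have h2 : (b : G) ^ ((k : ℤ) * m) * (g ^ ((k : ℤ) * (j * m)))⁻¹ ∈ N := by
        rw [← QuotientGroup.eq_one_iff, QuotientGroup.mk_mul, QuotientGroup.mk_inv,
          QuotientGroup.mk_zpow, QuotientGroup.mk_zpow, hj, QuotientGroup.mk_mul,
          QuotientGroup.mk_zpow, (QuotientGroup.eq_one_iff n).2 hn, one_mul, ← zpow_mul,
          mul_inv_eq_one]
        congr 1
        ring
      have h3 : (b : G) ^ ((k : ℤ) * m) =
        (b : G) ^ ((k : ℤ) * m) * (g ^ ((k : ℤ) * (j * m)))⁻¹ * g ^ ((k : ℤ) * (j * m)) := by group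
      rw [h3] at h1
      exact hk (j * m) w (h1.of_mul h2)
  have hcl : Subgroup.closure (E ∪ (fun x => g * x * g⁻¹) '' E) ≤ B := by
    rw [Subgroup.closure_le]
    rintro x (hx | ⟨y, hy, rfl⟩)
    · exact hNB (hEN hx)
    · exact hNB (Subgroup.Normal.conj_mem inferInstance y (hEN hy) g)
  refine ⟨B, inferInstance, Subgroup.inclusion hcl, ⟨g, hgB⟩, hCB,
    Subgroup.inclusion_injective hcl, ?_⟩
  intro x y _ hy
  exact Subtype.ext hy

/-- **kernels which are graph products** -/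
theorem gpk_all (hF : ClosedF C) (h : Hyp C Λ A N) (hQ : C (G ⧸ N))
    (hcase : ∀ g : G, (∀ s : Finset V, ∃ n ∈ N, ∀ v ∈ s, ∃ w, Maps (n * g) (A v) (A w)) ∨
      (∀ v : V, ∃ k : ℕ, 0 < k ∧ ∀ (m : ℤ) (w : V),
        Mv N (g ^ ((k : ℤ) * m)) (A v) (A w) → ¬ Λ.Adj v w)) : C G := by
  refine crit C hF.base G N hQ ?_
  intro g E hE hEN
  rcases hcase g with hg | hg
  · exact real_perm hF h g hg E hE hEN
  · exact real_sep hF h hQ g hg E hEN

end main

end Pool.Agent.V5helper8.GP
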