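import Pool.Agent.V5helper8.GP.Ker

/-!
# Equal conjugates of vertex groups; adjacency is not preserved by high powers
-/

set_option autoImplicit false

namespace Pool.Agent.V5helper8.GP

open Multiplicative
open Q30.FJ

section c

variable {V : Type} (π : V → V) (S₀ : Set V) (w : V)

/-- the pairs `(k, u)` which are connected with `(0, w)` -/
def cc (k : ℤ) (u : V) : Prop :=
  (∃ n : ℕ, k = n ∧ (∀ i < n, π^[i] u ∈ S₀) ∧ π^[n] u = w) ∨
  (∃ n : ℕ, 0 < n ∧ k = -n ∧ (∀ i < n, π^[i] w ∈ S₀) ∧ π^[n] w = u)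

theorem cc_step (hinj : ∀ v ∈ S₀, ∀ v' ∈ S₀, π v = π v' → v = v') {v : V} (hv : v ∈ S₀) (k : ℤ) :
    cc π S₀ w (k + 1) v ↔ cc π S₀ w k (π v) := by
  constructor
  · rintro (⟨n, hk, h1, h2⟩ | ⟨n, hn, hk, h1, h2⟩)
    · cases n with
      | zero =>
        right
        have e : v = w := h2
        refine ⟨1, one_pos, by push_cast at hk ⊢; omega, ?_, ?_⟩
        · intro i hi
          have hi0 : i = 0 := by omega
          rw [hi0]
          show w ∈ S₀
          rw [← e]
          exact hv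
        · show π w = π v
          rw [e]
      | succ n =>
        left
        refine ⟨n, by push_cast at hk; omega, ?_, ?_⟩
        · intro i hi
          rw [← Function.iterate_succ_apply]
          exact h1 (i + 1) (by omega)
        · rw [← Function.iterate_succ_apply]
          exact h2
    · right
      refine ⟨n + 1, Nat.succ_pos n, by push_cast; omega, ?_, ?_⟩
      · intro i hi
        rcases Nat.lt_or_ge i n with h | h
        · exact h1 i h
        · have hin : i = n := by omega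
          rw [hin, h2]
          exact hv
      · rw [Function.iterate_succ_apply', h2]
  · rintro (⟨n, hk, h1, h2⟩ | ⟨n, hn, hk, h1, h2⟩)
    · left
      refine ⟨n + 1, by push_cast; omega, ?_, ?_⟩
      · intro i hi
        cases i with
        | zero => exact hv
        | succ i =>
          rw [Function.iterate_succ_apply]
          exact h1 i (by omega)
      · rw [Function.iterate_succ_apply]
        exact h2
    · obtain ⟨m, rfl⟩ : ∃ m, n = m + 1 := ⟨n - 1, by omega⟩
      rw [Function.iterate_succ_apply'] at h2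
      have h3 : π^[m] w = v := hinj _ (h1 m (by omega)) _ hv h2
      cases m with
      | zero =>
        left
        refine ⟨0, by push_cast at hk ⊢; omega, fun i hi => absurd hi (Nat.not_lt_zero i), ?_⟩
        exact h3.symm
      | succ m =>
        right
        exact ⟨m + 1, Nat.succ_pos m, by push_cast at hk ⊢; omega, fun i hi => h1 i (by omega), h3⟩

end c

section path

variable {G : Type} [Group G] {V : Type} {Λ : SimpleGraph V} {A : V → Subgroup G}
  {N : Subgroup G} {g : G} {π : V → V} {S₀ S : Set V} {M : Subgroup G} {P : Type} [Group P]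
  {o : M →* P} {t : P} {d : P →* Multiplicative ℤ}

theorem Sit.pi_inj (h : Sit Λ A N g π S₀ S M o t d) : ∀ v ∈ S₀, ∀ v' ∈ S₀, π v = π v' → v = v' := by
  intro v hv v' hv' he
  obtain ⟨p, hp⟩ := h.prod.retr
  refine hp.conj_eq h.ne N.one_mem ?_
  have h1 := h.maps v hv
  have h2 := (h.maps v' hv').inv
  rw [← he] at h2
  have h3 := h1.mul h2
  rwa [inv_mul_cancel] at h3

theorem T_shift (c a b : ℤ) (v w : V) (he : T A o t a v = T A o t b w) :
    T A o t (c + a) v = T A o t (c + b) w := by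
  ext x
  have h1 : ∀ (a : ℤ) (v : V), x ∈ T A o t (c + a) v ↔ (t ^ c)⁻¹ * x * t ^ c ∈ T A o t a v := by
    intro a v
    rw [Maps_T (A := A) (o := o) c a v]
    have h2 : t ^ c * ((t ^ c)⁻¹ * x * t ^ c) * (t ^ c)⁻¹ = x := by group
    rw [h2]
  rw [h1, h1, he]

/-- equal conjugates of vertex groups are connected by a path -/
theorem Sit.path (h : Sit Λ A N g π S₀ S M o t d) (n : ℕ) {v w : V} (hw : w ∈ S)
    (he : T A o t n v = T A o t 0 w) : (∀ i < n, π^[i] v ∈ S₀) ∧ π^[n] v = w := by
  classical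
  have hc : cc π S₀ w n v := by
    by_contra hn
    let f' : ℤ → (u : V) → A u →* G := fun k u =>
      if cc π S₀ w k u then (MulAut.conj (g ^ k)).toMonoidHom.comp (A u).subtype else 1
    have hf1 : ∀ (k : ℤ) (u : V), cc π S₀ w k u → ∀ a : A u, f' k u a = g ^ k * a * (g ^ k)⁻¹ := by
      intro k u hu a
      have : f' k u = (MulAut.conj (g ^ k)).toMonoidHom.comp (A u).subtype := if_pos hu
      rw [this]
      rfl
    have hf2 : ∀ (k : ℤ) (u : V), ¬ cc π S₀ w k u → ∀ a : A u, f' k u a = 1 := by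
      intro k u hu a
      have : f' k u = 1 := if_neg hu
      rw [this]
      rfl
    have hex : ∀ k : ℤ, ∃ φ : N →* G, ∀ u (a : A u), φ ⟨a, h.prod.le u a.2⟩ = f' k u a := by
      intro k
      apply h.prod.univ
      intro u u' huu a b
      by_cases hu : cc π S₀ w k u
      · by_cases hu' : cc π S₀ w k u'
        · rw [hf1 k u hu, hf1 k u' hu']
          have h1 := h.prod.comm u u' huu a a.2 b b.2
          have e1 : ∀ x y : G, g ^ k * x * (g ^ k)⁻¹ * (g ^ k * y * (g ^ k)⁻¹) =
            g ^ k * (x * y) * (g ^ k)⁻¹ := by intro x y; group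
          rw [e1, e1, h1]
        · rw [hf2 k u' hu' b, mul_one, one_mul]
      · rw [hf2 k u hu a, mul_one, one_mul]
    choose φ hφ using hex
    obtain ⟨ψ, hψ⟩ := h.hn.fam h.ho h.ht (fun k => (φ k).comp (Subgroup.inclusion h.M_le)) (by
      rintro k x y ⟨u, hu, hx⟩ hy
      have hyA : (y : G) ∈ A (π u) := by
        rw [hy]
        exact (h.maps u hu x).1 hx
      have e1 : (φ (k + 1)).comp (Subgroup.inclusion h.M_le) x = f' (k + 1) u ⟨x, hx⟩ :=
        hφ (k + 1) u ⟨x, hx⟩
      have e2 : (φ k).comp (Subgroup.inclusion h.M_le) y = f' k (π u) ⟨y, hyA⟩ :=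
        hφ k (π u) ⟨y, hyA⟩
      rw [e1, e2]
      by_cases hcu : cc π S₀ w (k + 1) u
      · rw [hf1 _ _ hcu, hf1 _ _ ((cc_step π S₀ w h.pi_inj hu k).1 hcu)]
        show g ^ (k + 1) * (x : G) * (g ^ (k + 1))⁻¹ = g ^ k * (y : G) * (g ^ k)⁻¹
        rw [hy, zpow_add_one]
        group
      · rw [hf2 _ _ hcu, hf2 _ _ (fun h1 => hcu ((cc_step π S₀ w h.pi_inj hu k).2 h1))])
    apply h.ne w
    rw [Subgroup.eq_bot_iff_forall]
    intro a ha
    have haM := h.leM w hw ha
    have h1 : t ^ (0 : ℤ) * o ⟨a, haM⟩ * (t ^ (0 : ℤ))⁻¹ ∈ T A o t n v := by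
      rw [he]
      exact mem_T.2 ⟨_, ha, rfl⟩
    obtain ⟨b, hb, hab⟩ := mem_T.1 h1
    have h2 := hψ n b
    have h3 := hψ 0 ⟨a, haM⟩
    have h4 : (⟨t ^ (n : ℤ) * o b * (t ^ (n : ℤ))⁻¹, deg_conj h.ho n b⟩ : d.ker) =
      ⟨t ^ (0 : ℤ) * o ⟨a, haM⟩ * (t ^ (0 : ℤ))⁻¹, deg_conj h.ho 0 ⟨a, haM⟩⟩ := Subtype.ext hab
    rw [h4, h3] at h2
    have h5 : (φ n).comp (Subgroup.inclusion h.M_le) b = 1 :=
      (hφ n v ⟨b, hb⟩).trans (hf2 _ _ hn _)
    have h6 : (φ 0).comp (Subgroup.inclusion h.M_le) ⟨a, haM⟩ = a := by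
      refine (hφ 0 w ⟨a, ha⟩).trans ?_
      rw [hf1 0 w (Or.inl ⟨0, rfl, fun i hi => absurd hi (Nat.not_lt_zero i), rfl⟩)]
      simp
    rw [← h6]
    exact h2.trans h5
  rcases hc with ⟨m, hm, h1, h2⟩ | ⟨m, hm0, hm, -, -⟩
  · have : m = n := by omega
    rw [← this]
    exact ⟨h1, h2⟩
  · omega

end path

/-- a long path is a cycle -/
theorem cycle {V : Type} {π : V → V} {S₀ : Set V}
    (hinj : ∀ v ∈ S₀, ∀ v' ∈ S₀, π v = π v' → v = v') (s : Finset V) (hs : ∀ v ∈ S₀, v ∈ s)
    {n : ℕ} (hn : 0 < n) (hd : (s.card + 1).factorial ∣ n) {v : V} (hv : ∀ i < n, π^[i] v ∈ S₀) :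
    π^[n] v = v := by
  classical
  have hle : s.card + 1 ≤ n :=
    (Nat.self_le_factorial _).trans (Nat.le_of_dvd hn hd)
  obtain ⟨i, hi, j, hj, hij, he⟩ := Finset.exists_ne_map_eq_of_card_lt_of_maps_to
    (s := Finset.range (s.card + 1)) (t := s) (by rw [Finset.card_range]; omega)
    (f := fun i => π^[i] v) (by
      intro i hi
      rw [Finset.mem_coe, Finset.mem_range] at hi
      exact hs _ (hv i (by omega)))
  rw [Finset.mem_range] at hi hj
  -- the cancellation
  have key : ∀ (l i : ℕ), i + l < n → π^[i] v = π^[i + l] v → v = π^[l] v := by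
    intro l i
    induction i with
    | zero =>
      intro _ h
      rwa [zero_add] at h
    | succ i ih =>
      intro hi h
      apply ih (by omega)
      have e1 : i + 1 + l = (i + l) + 1 := by omega
      rw [e1, Function.iterate_succ_apply', Function.iterate_succ_apply'] at h
      exact hinj _ (hv i (by omega)) _ (hv (i + l) (by omega)) h
  have main : ∀ i j : ℕ, i < j → j < s.card + 1 → π^[i] v = π^[j] v → π^[n] v = v := by
    intro i j hij hj he
    obtain ⟨l, rfl⟩ : ∃ l, j = i + l := ⟨j - i, by omega⟩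
    have h1 := key l i (by omega) he
    have h2 : Function.IsPeriodicPt π l v := h1.symm
    have h3 : l ∣ n := (Nat.dvd_factorial (by omega) (by omega)).trans hd
    exact h2.trans_dvd h3
  rcases Nat.lt_or_gt_of_ne hij with h | h
  · exact main i j h hj he
  · exact main j i h hi he.symm

end Pool.Agent.V5helper8.GP
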