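import Pool.Agent.V5helper8.GP.Main
import Pool.Agent.R684.FP.Free

/-!
# Kernels which are relative graph products; graph-wreath products
-/

set_option autoImplicit false

namespace Pool.Agent.V5helper8.GP

open Q30.FJ
open Pool.Agent.Y110.FJ
open Pool.Agent.Y462.SS (Closed)

variable {C : ∀ (G : Type) [Group G], Prop}

theorem closedF (hC : ClosedE C) (hF : Pool.Agent.R684.FP.FbC C) : ClosedF C where
  base := hC
  free := by
    intro G _ N _ hN hQ
    have := hN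
    exact Pool.Agent.R684.FP.free_ext hC hF N hQ

section rel

variable {G : Type} [Group G] {V : Type} {Λ : SimpleGraph V} {A : V → Subgroup G}
  {Q : Subgroup G} {L : V → Subgroup G} {N : Subgroup G} [N.Normal]

/-- **kernels which are relative graph products** -/
theorem rel_all (hF : ClosedF C) (h : Rel Λ A Q L N) (hne : ∀ v, A v ≠ ⊥)
    (hperm : ∀ (g : G) (v : V), ∃ w, Mv N g (A v) (A w))
    (hcr : ∀ (v : V) (g : G), Maps g (A v) (A v) → CR C g (A v))
    (K : Subgroup G) [K.Normal] (hK : K = nc N A) (hQ : C (G ⧸ K))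
    (hcase : ∀ g : G, (∀ s : Finset V, ∃ n ∈ N, (∀ q ∈ Q, n * g * q * (n * g)⁻¹ ∈ Q) ∧
        ∀ v ∈ s, ∃ w, Maps (n * g) (A v) (A w)) ∨
      (∀ v : V, ∃ k : ℕ, 0 < k ∧ ∀ (m : ℤ) (w : V),
        Mv N (g ^ ((k : ℤ) * m)) (A v) (A w) → ¬ Λ.Adj v w)) : C G := by
  classical
  subst hK
  have hyp : Hyp C (relG Λ Q L) (relA A Q L) (nc N A) :=
    ⟨h.kernel, relA_ne hne, h.perm hperm, relA_cr hcr⟩
  refine gpk_all hF hyp hQ ?_
  intro g
  rcases hcase g with hg | hg
  · left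
    intro s
    obtain ⟨n, hn, hnQ, hnA⟩ := hg (s.image Sigma.fst)
    obtain ⟨k, hk, q, hq, hnk⟩ := h.decomp hn
    have hqN : q ∈ N := h.leQ hq
    refine ⟨q⁻¹ * k * q⁻¹⁻¹, nc_conj (N.inv_mem hqN) hk, ?_⟩
    intro i hi
    obtain ⟨w, hw⟩ := hnA i.1 (Finset.mem_image_of_mem _ hi)
    obtain ⟨u, hu⟩ : ∃ u : G, u = (i.2.out : G) := ⟨_, rfl⟩
    have huQ : u ∈ Q := by
      rw [hu]
      exact i.2.out.2
    have hq' : q⁻¹ * (n * g * u * (n * g)⁻¹) ∈ Q := Q.mul_mem (Q.inv_mem hq) (hnQ u huQ)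
    refine ⟨⟨w, QuotientGroup.mk ⟨_, hq'⟩⟩, ?_⟩
    intro x
    rw [mem_relA, h.mem_mk, ← hu, hw]
    show _ ↔ (q⁻¹ * (n * g * u * (n * g)⁻¹))⁻¹ * (q⁻¹ * k * q⁻¹⁻¹ * g * x *
      (q⁻¹ * k * q⁻¹⁻¹ * g)⁻¹) * (q⁻¹ * (n * g * u * (n * g)⁻¹)) ∈ A w
    have e1 : (q⁻¹ * (n * g * u * (n * g)⁻¹))⁻¹ * (q⁻¹ * k * q⁻¹⁻¹ * g * x *
        (q⁻¹ * k * q⁻¹⁻¹ * g)⁻¹) * (q⁻¹ * (n * g * u * (n * g)⁻¹)) =
        n * g * (u⁻¹ * x * u) * (n * g)⁻¹ := by
      rw [hnk]
      group
    rw [e1]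
  · right
    intro i
    obtain ⟨k, hk0, hk⟩ := hg i.1
    refine ⟨k, hk0, ?_⟩
    rintro m j ⟨n, hn, hm⟩ hij
    refine hk m j.1 ?_ hij.1
    obtain ⟨q, hq⟩ : ∃ q : G, q = (i.2.out : G) := ⟨_, rfl⟩
    obtain ⟨r, hr⟩ : ∃ r : G, r = (j.2.out : G) := ⟨_, rfl⟩
    have hqN : q ∈ N := by
      rw [hq]
      exact h.leQ i.2.out.2
    have hrN : r ∈ N := by
      rw [hr]
      exact h.leQ j.2.out.2
    have hKN : nc N A ≤ N := nc_le h.le
    refine ⟨r⁻¹ * n * (g ^ ((k : ℤ) * m) * q * (g ^ ((k : ℤ) * m))⁻¹),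
      N.mul_mem (N.mul_mem (N.inv_mem hrN) (hKN hn))
        (Subgroup.Normal.conj_mem inferInstance q hqN _), ?_⟩
    intro a
    have h1 := hm (q * a * q⁻¹)
    rw [mem_relA, mem_relA, ← hq, ← hr] at h1
    have h2 : q⁻¹ * (q * a * q⁻¹) * q = a := by group
    rw [h2] at h1
    rw [h1]
    have h3 : ∀ z : G, r⁻¹ * (n * z * (q * a * q⁻¹) * (n * z)⁻¹) * r =
        r⁻¹ * n * (z * q * z⁻¹) * z * a * (r⁻¹ * n * (z * q * z⁻¹) * z)⁻¹ := by
      intro z
      group
    rw [h3]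

omit [N.Normal] in
/-- mapping tori -/
theorem cr_of_tori {v : V}
    (hC : ∀ g : G, Maps g (A v) (A v) → C ↥(A v ⊔ Subgroup.zpowers g)) (g : G)
    (hg : Maps g (A v) (A v)) : CR C g (A v) := by
  have hle : A v ≤ A v ⊔ Subgroup.zpowers g := le_sup_left
  refine ⟨↥(A v ⊔ Subgroup.zpowers g), inferInstance, Subgroup.inclusion hle,
    ⟨g, Subgroup.mem_sup_right (Subgroup.mem_zpowers g)⟩, hC g hg,
    Subgroup.inclusion_injective hle, ?_⟩
  intro a a' haa
  exact Subtype.ext haa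

end rel

section gw

variable {V Q A : Type} [Group Q] [Group A] [MulAction Q V] {Λ : SimpleGraph V}
  {α : Q →* MulAut (GrP Λ (fun _ => A))}

/-- the vertex groups in the graph-wreath product -/
def gv (Λ : SimpleGraph V) (A : Type) [Group A] (α : Q →* MulAut (GrP Λ (fun _ => A))) (v : V) :
    Subgroup (GrP Λ (fun _ => A) ⋊[α] Q) :=
  ((SemidirectProduct.inl (φ := α)).comp (GrP.of Λ (fun _ => A) v)).range

theorem of_inj (v : V) : Function.Injective (GrP.of Λ (fun _ => A) v) :=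
  Function.LeftInverse.injective (g := gvert Λ (fun _ => A) v)
    (fun a => gvert_of (Λ := Λ) (A := fun _ => A) v a)

theorem gv_prod : GProd Λ (gv Λ A α) (SemidirectProduct.inl (φ := α)).range where
  le := by
    rintro v _ ⟨a, rfl⟩
    exact ⟨_, rfl⟩
  gen := by
    rintro M hM _ ⟨x, rfl⟩
    have h1 : gsub Λ (fun _ => A) Set.univ ≤ M.comap (SemidirectProduct.inl (φ := α)) := by
      rw [gsub, Subgroup.closure_le]
      rintro _ ⟨v, -, a, rfl⟩
      exact hM v ⟨a, rfl⟩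
    obtain ⟨s, hs⟩ := gsupp Λ (fun _ => A) x
    exact h1 (gsub_mono (Set.subset_univ _) hs)
  comm := by
    rintro v w hvw _ ⟨a, rfl⟩ _ ⟨b, rfl⟩
    show SemidirectProduct.inl (GrP.of Λ (fun _ => A) v a) *
      SemidirectProduct.inl (GrP.of Λ (fun _ => A) w b) =
      SemidirectProduct.inl (GrP.of Λ (fun _ => A) w b) *
      SemidirectProduct.inl (GrP.of Λ (fun _ => A) v a)
    rw [← map_mul, ← map_mul, gcomm hvw]
  univ := by
    intro H _ f hf
    let e : GrP Λ (fun _ => A) ≃* (SemidirectProduct.inl (φ := α)).range :=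
      MonoidHom.ofInjective SemidirectProduct.inl_injective
    let ψ : ∀ v, A →* gv Λ A α v := fun v =>
      ((SemidirectProduct.inl (φ := α)).comp (GrP.of Λ (fun _ => A) v)).rangeRestrict
    let φ : GrP Λ (fun _ => A) →* H := glift (fun v => (f v).comp (ψ v)) (by
      intro v w hvw a b
      exact hf v w hvw _ _)
    refine ⟨φ.comp e.symm.toMonoidHom, ?_⟩
    rintro v ⟨_, a, rfl⟩
    have h1 : e.symm ⟨SemidirectProduct.inl (GrP.of Λ (fun _ => A) v a), ⟨_, rfl⟩⟩ =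
        GrP.of Λ (fun _ => A) v a := by
      rw [MulEquiv.symm_apply_eq]
      rfl
    show φ (e.symm ⟨SemidirectProduct.inl (GrP.of Λ (fun _ => A) v a), ⟨_, rfl⟩⟩) = _
    rw [h1]
    exact glift_of (Λ := Λ) (A := fun _ => A) (fun v => (f v).comp (ψ v)) _ v a

/-- **graph-wreath products** -/
theorem gw (hF : ClosedF C) (hα : ∀ q : Q, IsPerm Λ A (MulAction.toPerm q) (α q)) (hA : C A)
    (hQ : C Q) : C (GrP Λ (fun _ => A) ⋊[α] Q) := by
  classical
  have hrg : (SemidirectProduct.inl (φ := α)).range = (SemidirectProduct.rightHom (φ := α)).ker :=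
    SemidirectProduct.range_inl_eq_ker_rightHom
  by_cases htr : ∀ a : A, a = 1
  · refine hF.base.base.of_injective _ Q (SemidirectProduct.rightHom (φ := α)) ?_ hQ
    rw [injective_iff_map_eq_one]
    intro x hx
    have h1 : x ∈ (SemidirectProduct.inl (φ := α)).range := by
      rw [hrg]
      exact hx
    obtain ⟨y, rfl⟩ := h1
    have h2 : MonoidHom.id (GrP Λ (fun _ => A)) = 1 := by
      apply gext
      intro v a
      rw [htr a, map_one, map_one, map_one]
    have h3 := DFunLike.congr_fun h2 y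
    have h4 : y = 1 := h3
    rw [h4, map_one]
  push Not at htr
  obtain ⟨a₀, ha₀⟩ := htr
  obtain ⟨N, hN⟩ : ∃ N, N = (SemidirectProduct.rightHom (φ := α)).ker := ⟨_, rfl⟩
  have hNn : N.Normal := by
    rw [hN]
    infer_instance
  have hprod : GProd Λ (gv Λ A α) N := by
    rw [hN, ← hrg]
    exact gv_prod
  have hne : ∀ v, gv Λ A α v ≠ ⊥ := by
    intro v hv
    rw [Subgroup.eq_bot_iff_forall] at hv
    have h1 := hv _ ⟨a₀, rfl⟩
    apply ha₀
    apply of_inj (Λ := Λ) v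
    apply SemidirectProduct.inl_injective (φ := α)
    rw [map_one, map_one]
    exact h1
  have hconj : ∀ (q : Q) (v : V) (a : A),
      (SemidirectProduct.inr q : GrP Λ (fun _ => A) ⋊[α] Q) *
        SemidirectProduct.inl (GrP.of Λ (fun _ => A) v a) * (SemidirectProduct.inr q)⁻¹ =
        SemidirectProduct.inl (GrP.of Λ (fun _ => A) (q • v) a) := by
    intro q v a
    rw [← map_inv, ← SemidirectProduct.inl_aut, hα q v a]
    rfl
  have hmaps1 : ∀ (q : Q) (v : V) (x : GrP Λ (fun _ => A) ⋊[α] Q), x ∈ gv Λ A α v →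
      SemidirectProduct.inr q * x * (SemidirectProduct.inr q)⁻¹ ∈ gv Λ A α (q • v) := by
    rintro q v _ ⟨a, rfl⟩
    refine ⟨a, ?_⟩
    exact (hconj q v a).symm
  have hmaps : ∀ (q : Q) (v : V), Maps (SemidirectProduct.inr q : GrP Λ (fun _ => A) ⋊[α] Q)
      (gv Λ A α v) (gv Λ A α (q • v)) := by
    intro q v x
    refine ⟨hmaps1 q v x, fun hx => ?_⟩
    have h1 := hmaps1 q⁻¹ (q • v) _ hx
    rw [inv_smul_smul, map_inv] at h1
    have h2 : (SemidirectProduct.inr q : GrP Λ (fun _ => A) ⋊[α] Q)⁻¹ *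
      (SemidirectProduct.inr q * x * (SemidirectProduct.inr q)⁻¹) *
      ((SemidirectProduct.inr q)⁻¹)⁻¹ = x := by group
    rwa [h2] at h1
  have hnq : ∀ g : GrP Λ (fun _ => A) ⋊[α] Q, SemidirectProduct.inr g.right * g⁻¹ ∈ N := by
    intro g
    rw [hN, MonoidHom.mem_ker, map_mul, map_inv, SemidirectProduct.rightHom_inr]
    exact mul_inv_cancel _
  have hmv : ∀ (g : GrP Λ (fun _ => A) ⋊[α] Q) (v : V),
      Maps (SemidirectProduct.inr g.right * g⁻¹ * g) (gv Λ A α v) (gv Λ A α (g.right • v)) := by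
    intro g v
    rw [inv_mul_cancel_right]
    exact hmaps _ _
  have hyp : Hyp C Λ (gv Λ A α) N := by
    refine ⟨hprod, hne, fun g v => ⟨g.right • v, _, hnq g, hmv g v⟩, ?_⟩
    intro v g hg
    obtain ⟨m, hm⟩ : ∃ m, m = (SemidirectProduct.inr g.right * g⁻¹)⁻¹ := ⟨_, rfl⟩
    have hmN : m ∈ N := by
      rw [hm]
      exact N.inv_mem (hnq g)
    have hgm : g = m * SemidirectProduct.inr g.right := by
      rw [hm]
      group
    have hfix : g.right • v = v :=
      Mv.eq hprod hne ⟨_, hnq g, hmv g v⟩ (⟨1, N.one_mem, by rw [one_mul]; exact hg⟩ :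
        Mv N g (gv Λ A α v) (gv Λ A α v))
    obtain ⟨p, hp⟩ := hprod.retr
    have hcg : ∀ x ∈ gv Λ A α v, g * x * g⁻¹ = m * x * m⁻¹ := by
      rintro _ ⟨a, rfl⟩
      have h1 := hconj g.right v a
      rw [hfix] at h1
      have h2 : g * SemidirectProduct.inl (GrP.of Λ (fun _ => A) v a) * g⁻¹ =
          m * (SemidirectProduct.inr g.right * SemidirectProduct.inl (GrP.of Λ (fun _ => A) v a) *
            (SemidirectProduct.inr g.right)⁻¹) * m⁻¹ := by
        conv_lhs => rw [hgm]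
        group
      exact h2.trans (by rw [h1]; rfl)
    refine ⟨gv Λ A α v, inferInstance, MonoidHom.id _, p v ⟨m, hmN⟩, ?_, Function.injective_id, ?_⟩
    · have hinj : Function.Injective
          ((SemidirectProduct.inl (φ := α)).comp (GrP.of Λ (fun _ => A) v)) :=
        SemidirectProduct.inl_injective.comp (of_inj v)
      exact hF.base.base.of_injective _ A (MonoidHom.ofInjective hinj).symm.toMonoidHom
        (MonoidHom.ofInjective hinj).symm.injective hA
    · intro x y hxy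
      rw [hcg x x.2] at hxy
      show y = p v ⟨m, hmN⟩ * x * (p v ⟨m, hmN⟩)⁻¹
      have h1 : (⟨(y : GrP Λ (fun _ => A) ⋊[α] Q), hp.le v y.2⟩ : N) =
          ⟨m, hmN⟩ * ⟨x, hp.le v x.2⟩ * ⟨m, hmN⟩⁻¹ := Subtype.ext hxy
      have h2 := congrArg (p v) h1
      rwa [map_mul, map_mul, map_inv, hp.same v y, hp.same v x] at h2
  refine gpk_all hF hyp ?_ ?_
  · subst hN
    exact hF.base.base.of_injective _ Q (QuotientGroup.kerLift (SemidirectProduct.rightHom (φ := α)))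
      (QuotientGroup.kerLift_injective _) hQ
  · intro g
    left
    intro s
    exact ⟨_, hnq g, fun v _ => ⟨_, hmv g v⟩⟩

end gw

end Pool.Agent.V5helper8.GP
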